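import Mathlib
import Pool.Agent.Q277.TriangleSums

/-!
# Alternating sums of odd binomial power sums are divisible by `4n`

For all `r ≥ 0` and `n ≥ 2`, `∑_{k<n} (-1)^k (3k+2) f_k^{(2r+1)}` is divisible by `4n`.
-/

open Finset

namespace Pool.Agent.Results.MP_97e2c3_nt.OddExponents

/-- `f_n^{(r)} = ∑_{k=0}^n C(n,k)^r`. -/
def f (r n : ℕ) : ℕ := ∑ k ∈ range (n + 1), n.choose k ^ r

/-- `S_r(n) = ∑_{k=0}^{n-1} (-1)^k (3k+2) f_k^{(2r+1)}`. -/
def S (r n : ℕ) : ℤ := ∑ k ∈ range n, (-1) ^ k * (3 * (k : ℤ) + 2) * (f (2 * r + 1) k : ℤ)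

theorem S_eq (r n : ℕ) : S r n = Q277.TriangleSums.S (2 * r + 1) n := by
  unfold S Q277.TriangleSums.S f
  push_cast
  refine Finset.sum_congr rfl fun k _ => ?_
  have : (-1 : ℤ) ^ ((2 * r + 1) * k) = (-1) ^ k := by
    rw [pow_mul, pow_add, pow_mul]; norm_num
  rw [this]

/-- For every `n > 1` and every `r ≥ 0` the sum `S_r(n)` is divisible by `4n`. -/
theorem result : ∀ n r : ℕ, 1 < n → (4 * (n : ℤ)) ∣ S r n := by
  intro n r hn
  rw [S_eq]
  exact Q277.TriangleSums.four_mul_dvd_S (2 * r + 1) n (by omega) hn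

end Pool.Agent.Results.MP_97e2c3_nt.OddExponents
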